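import Pool.Agent.H70.PW.Targets
import Pool.Agent.H70.OQ.Targets

/-!
# MP_0f8dca_lc, module AVG: the average error
-/

set_option autoImplicit false

open Finset Pool.Agent.H6.NB Pool.Agent.H70.OQ Pool.Agent.H70.PW

namespace Pool.Agent.H74.PW.AVG

theorem ic_true {p : Prop} (h : p) : ic p = 1 := by
  unfold ic
  exact if_pos h

theorem ic_false {p : Prop} (h : ¬ p) : ic p = 0 := by
  unfold ic
  exact if_neg h

theorem ic_nonneg (p : Prop) : 0 ≤ ic p := by
  by_cases h : p
  · rw [ic_true h]; norm_num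
  · rw [ic_false h]

theorem ic_or (p q : Prop) : ic (p ∨ q) ≤ ic p + ic q := by
  by_cases hp : p
  · rw [ic_true (Or.inl hp), ic_true hp]
    linarith [ic_nonneg q]
  · by_cases hq : q
    · rw [ic_true (Or.inr hq), ic_true hq]
      linarith [ic_nonneg p]
    · rw [ic_false fun h => h.elim hp hq]
      linarith [ic_nonneg p, ic_nonneg q]

theorem ic_ex_mem {α : Type} (I : Finset α) (a : α → Prop) :
    ic (∃ s ∈ I, a s) ≤ ∑ s ∈ I, ic (a s) := by
  by_cases h : ∃ s ∈ I, a s
  · rw [ic_true h]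
    obtain ⟨s, hs, has⟩ := h
    rw [← ic_true has]
    exact Finset.single_le_sum (f := fun s => ic (a s)) (fun s _ => ic_nonneg _) hs
  · rw [ic_false h]
    exact Finset.sum_nonneg fun s _ => ic_nonneg _

theorem ic_ex {α : Type} [Fintype α] (a : α → Prop) : ic (∃ s, a s) ≤ ∑ s, ic (a s) := by
  have h := ic_ex_mem (univ : Finset α) a
  have h2 : (∃ s ∈ (univ : Finset α), a s) ↔ ∃ s, a s := by simp
  rwa [propext h2] at h

section

variable {W X B Ω ρ : Type} [Fintype W] [Fintype Ω] [DecidableEq Ω] [Fintype ρ] {nn qb : Ω → ℕ}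

omit [Fintype Ω] [DecidableEq Ω] in
theorem fm_vl (h2 : T_FMS) {S t d : ℕ} {F : (PosG B Ω nn qb → Bool) → Bool} (hF : Fm S t d F)
    (e : Ω → Bool) (P : Blk nn qb) : Fm S t d fun T : B → Bool => F (vlG T e P) := by
  have h := h2 (PosG B Ω nn qb) B S t 1 d F (fun v T => vlG T e P v) (fun v => ?_) hF
  · rw [mul_one] at h
    exact h
  · cases v with
    | cst b => exact ⟨.leaf b, by simp [Pool.Agent.H68.AC.DT.depth], fun y => by
        simp [Pool.Agent.H68.AC.DT.eval, vlG]⟩
    | bas a => exact ⟨.node a (.leaf false) (.leaf true), by simp [Pool.Agent.H68.AC.DT.depth],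
        fun y => by cases hy : y a <;> simp [Pool.Agent.H68.AC.DT.eval, vlG, hy]⟩
    | key s => exact ⟨.leaf (e s), by simp [Pool.Agent.H68.AC.DT.depth], fun y => by
        simp [Pool.Agent.H68.AC.DT.eval, vlG]⟩
    | blk s i v => exact ⟨.leaf (P s i v), by simp [Pool.Agent.H68.AC.DT.depth], fun y => by
        simp [Pool.Agent.H68.AC.DT.eval, vlG]⟩

omit [Fintype Ω] [DecidableEq Ω] in
theorem bdf_le (h2 : T_FMS) {D : Ω → (PosG B Ω nn qb → Bool) → Bool}
    {f : ρ → (PosG B Ω nn qb → Bool) → Bool} {lev : Ω → ℕ} {S t d h w L : ℕ} {β : ℝ} {ω : W → ℝ}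
    {lx : W → X → Bool} {Tb : W → (X → Bool) → B → Bool} (hS : Syg D lev S t d h)
    (hf : ∀ r, Fm S t d (f r)) (hω : ∀ p, 0 ≤ ω p) (hβ : 0 ≤ β) (hT : Tbh ω lx Tb S t d w β)
    (I : Finset Ω) (hI : I.card ≤ L) (e : Ω → Bool) (P : Blk nn qb) :
    ∑ p, ω p * ic (Bdf w (lx p) (Tb p) D f I e P) ≤ ((L : ℝ) + Fintype.card ρ) * β := by
  have h1 : ∀ p, ω p * ic (Bdf w (lx p) (Tb p) D f I e P) ≤
      ∑ s ∈ I, ω p * ic (¬ Dx w (lx p) (Tb p) fun T => accG D P s T e) +
        ∑ r, ω p * ic (¬ Dx w (lx p) (Tb p) fun T => f r (vlG T e P)) := by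
    intro p
    rw [← Finset.mul_sum, ← Finset.mul_sum, ← mul_add]
    refine mul_le_mul_of_nonneg_left ?_ (hω p)
    unfold Bdf
    exact (ic_or _ _).trans (add_le_add (ic_ex_mem _ _) (ic_ex _))
  refine (Finset.sum_le_sum fun p _ => h1 p).trans ?_
  rw [Finset.sum_add_distrib, Finset.sum_comm, Finset.sum_comm (s := univ) (t := univ)]
  have ha : ∑ s ∈ I, ∑ p, ω p * ic (¬ Dx w (lx p) (Tb p) fun T => accG D P s T e) ≤
      (L : ℝ) * β := by
    refine (Finset.sum_le_sum fun s _ => hT _ (fm_vl h2 (hS.fm s) e P)).trans ?_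
    rw [Finset.sum_const, nsmul_eq_mul]
    exact mul_le_mul_of_nonneg_right (by exact_mod_cast hI) hβ
  have hb : ∑ r, ∑ p, ω p * ic (¬ Dx w (lx p) (Tb p) fun T => f r (vlG T e P)) ≤
      (Fintype.card ρ : ℝ) * β := by
    refine (Finset.sum_le_sum fun r _ => hT _ (fm_vl h2 (hf r) e P)).trans ?_
    rw [Finset.sum_const, nsmul_eq_mul, Finset.card_univ]
  rw [add_mul]
  exact add_le_add ha hb

theorem wgt_le (h1 : T_NUC) (her : ∀ s, er (qb s) (nn s) < 1) (I : Finset Ω) :
    ∑ P : Blk nn qb, |wgt I P| ≤ 2 ^ I.card := by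
  classical
  let g : ∀ s : Ω, (Fin (nn s) → VV (qb s) → Bool) → ℝ := fun s P =>
    if s ∈ I then |nuc true (qb s) (nn s) P - nuc false (qb s) (nn s) P|
      else |nuc false (qb s) (nn s) P|
  have h2 : ∀ P : Blk nn qb, |wgt I P| = ∏ s, g s (P s) := by
    intro P
    unfold wgt
    rw [abs_mul, Finset.abs_prod, Finset.abs_prod, ← Finset.prod_mul_prod_compl I]
    congr 1
    · exact Finset.prod_congr rfl fun s hs => (if_pos hs).symm
    · exact Finset.prod_congr rfl fun s hs => (if_neg (Finset.mem_compl.1 hs)).symm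
  have h3 : ∑ P : Blk nn qb, ∏ s, g s (P s) = ∏ s, ∑ P, g s P := by
    rw [Finset.prod_univ_sum, Fintype.piFinset_univ]
  simp_rw [h2]
  rw [h3]
  have h4 : ∀ s, ∑ P, g s P ≤ if s ∈ I then (2 : ℝ) else 1 := by
    intro s
    have ht := h1 true (qb s) (nn s) (her s)
    have hf := h1 false (qb s) (nn s) (her s)
    by_cases hs : s ∈ I
    · rw [if_pos hs]
      have : ∀ P, g s P ≤ nuc true (qb s) (nn s) P + nuc false (qb s) (nn s) P := by
        intro P
        show (if s ∈ I then |nuc true (qb s) (nn s) P - nuc false (qb s) (nn s) P|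
          else |nuc false (qb s) (nn s) P|) ≤ _
        rw [if_pos hs, abs_le]
        constructor <;> linarith [ht.1 P, hf.1 P]
      refine (Finset.sum_le_sum fun P _ => this P).trans ?_
      rw [Finset.sum_add_distrib, ht.2.1, hf.2.1]
      norm_num
    · rw [if_neg hs]
      have : ∀ P, g s P = nuc false (qb s) (nn s) P := by
        intro P
        show (if s ∈ I then |nuc true (qb s) (nn s) P - nuc false (qb s) (nn s) P|
          else |nuc false (qb s) (nn s) P|) = _
        rw [if_neg hs, abs_of_nonneg (hf.1 P)]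
      simp_rw [this]
      rw [hf.2.1]
  refine (Finset.prod_le_prod (fun s _ => Finset.sum_nonneg fun P _ => ?_) fun s _ => h4 s).trans ?_
  · show 0 ≤ if s ∈ I then |nuc true (qb s) (nn s) P - nuc false (qb s) (nn s) P|
      else |nuc false (qb s) (nn s) P|
    split_ifs <;> exact abs_nonneg _
  · rw [Finset.prod_ite_mem, Finset.univ_inter, Finset.prod_const]

end

theorem geo_le {y : ℝ} (hy : 2 ≤ y) (L : ℕ) : ∑ j ∈ range L, y ^ j ≤ y ^ L := by
  induction L with
  | zero => simp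
  | succ L ih =>
    rw [Finset.sum_range_succ, pow_succ]
    have : 0 ≤ y ^ L := pow_nonneg (by linarith) L
    nlinarith

theorem sum_two (Ω : Type) [Fintype Ω] [DecidableEq Ω] (L : ℕ) :
    ∑ I ∈ univ.filter (fun I : Finset Ω => I.card < L), (2 : ℝ) ^ I.card ≤
      (2 * ((Fintype.card Ω : ℝ) + 1)) ^ L := by
  have hmap : ∀ I ∈ univ.filter (fun I : Finset Ω => I.card < L), I.card ∈ range L := by
    intro I hI
    exact Finset.mem_range.2 (Finset.mem_filter.1 hI).2
  rw [← Finset.sum_fiberwise_of_maps_to hmap]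
  refine (Finset.sum_le_sum fun j hj => ?_).trans (geo_le (y := 2 * ((Fintype.card Ω : ℝ) + 1))
    (by have : (0 : ℝ) ≤ Fintype.card Ω := Nat.cast_nonneg _; linarith) L)
  have h1 : ∑ I ∈ (univ.filter (fun I : Finset Ω => I.card < L)).filter (fun I => I.card = j),
      (2 : ℝ) ^ I.card ≤ (Fintype.card Ω : ℝ) ^ j * 2 ^ j := by
    rw [Finset.sum_congr rfl (g := fun _ => (2 : ℝ) ^ j)
      (fun I hI => by rw [(Finset.mem_filter.1 hI).2]), Finset.sum_const, nsmul_eq_mul]
    refine mul_le_mul_of_nonneg_right ?_ (by positivity)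
    have h2 : ((univ.filter (fun I : Finset Ω => I.card < L)).filter (fun I => I.card = j)) ⊆
        powersetCard j univ := by
      intro I hI
      exact Finset.mem_powersetCard.2 ⟨Finset.subset_univ _, (Finset.mem_filter.1 hI).2⟩
    have h3 := (Finset.card_le_card h2).trans (Finset.card_powersetCard j univ).le
    rw [Finset.card_univ] at h3
    exact_mod_cast h3.trans (Nat.choose_le_pow _ _)
  refine h1.trans ?_
  rw [← mul_pow]
  exact pow_le_pow_left₀ (by positivity) (by linarith) j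

theorem avg (h1 : T_NUC) (h2 : Pool.Agent.H70.OQ.T_FMS) : T_AVG := by
  intro W X B Ω ρ _ _ _ _ _ nn qb D f lev S t d h w L β ω lx Tb hS hf hω hβ hT her
  set c : ℝ := (Fintype.card ρ : ℝ) with hc
  have hc0 : 0 ≤ c := Nat.cast_nonneg _
  set K : ℝ := ((L : ℝ) + c) * β with hK
  have hK0 : 0 ≤ K := mul_nonneg (add_nonneg (Nat.cast_nonneg _) hc0) hβ
  have hpow : (0 : ℝ) < 2 ^ Fintype.card Ω := by positivity
  have e1 : ∑ p, ω p * Er w L (lx p) (Tb p) D f =
      ∑ I ∈ univ.filter (fun I : Finset Ω => I.card < L), (∑ e : Ω → Bool, ∑ P : Blk nn qb,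
        |wgt I P| * ∑ p, ω p * ic (Bdf w (lx p) (Tb p) D f I e P)) /
          2 ^ Fintype.card Ω * (3 * c) := by
    unfold Er
    simp_rw [Finset.mul_sum]
    rw [Finset.sum_comm]
    refine Finset.sum_congr rfl fun I _ => ?_
    simp_rw [Finset.sum_div, Finset.sum_mul, Finset.mul_sum]
    rw [Finset.sum_comm]
    refine Finset.sum_congr rfl fun e _ => ?_
    rw [Finset.sum_comm]
    refine Finset.sum_congr rfl fun P _ => Finset.sum_congr rfl fun p _ => ?_
    ring
  rw [e1]
  have e2 : ∀ I ∈ univ.filter (fun I : Finset Ω => I.card < L), (∑ e : Ω → Bool,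
      ∑ P : Blk nn qb, |wgt I P| * ∑ p, ω p * ic (Bdf w (lx p) (Tb p) D f I e P)) /
        2 ^ Fintype.card Ω * (3 * c) ≤ 2 ^ I.card * (K * (3 * c)) := by
    intro I hI
    have hIL : I.card ≤ L := (Finset.mem_filter.1 hI).2.le
    have e3 : ∀ e : Ω → Bool, ∑ P : Blk nn qb, |wgt I P| * ∑ p, ω p *
        ic (Bdf w (lx p) (Tb p) D f I e P) ≤ 2 ^ I.card * K := by
      intro e
      refine (Finset.sum_le_sum fun P _ => mul_le_mul_of_nonneg_left
        (bdf_le h2 hS hf hω hβ hT I hIL e P) (abs_nonneg _)).trans ?_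
      rw [← Finset.sum_mul]
      exact mul_le_mul_of_nonneg_right (wgt_le h1 her I) hK0
    have e4 : ∑ e : Ω → Bool, ∑ P : Blk nn qb, |wgt I P| * ∑ p, ω p *
        ic (Bdf w (lx p) (Tb p) D f I e P) ≤ 2 ^ Fintype.card Ω * (2 ^ I.card * K) := by
      refine (Finset.sum_le_sum fun e _ => e3 e).trans ?_
      rw [Finset.sum_const, Finset.card_univ, Fintype.card_fun, Fintype.card_bool, nsmul_eq_mul]
      push_cast
      exact le_rfl
    rw [← mul_assoc (2 ^ I.card) K (3 * c)]
    have h3c : 0 ≤ 3 * c := mul_nonneg (by norm_num) hc0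
    refine mul_le_mul_of_nonneg_right ?_ h3c
    rw [div_le_iff₀ hpow, mul_comm (2 ^ I.card * K)]
    exact e4
  refine (Finset.sum_le_sum e2).trans ?_
  rw [← Finset.sum_mul]
  have h3c : 0 ≤ 3 * c := mul_nonneg (by norm_num) hc0
  have hc3 : 0 ≤ K * (3 * c) := mul_nonneg hK0 h3c
  have e5 := mul_le_mul_of_nonneg_right (sum_two Ω L) hc3
  refine e5.trans (le_of_eq ?_)
  rw [hK]
  ring

end Pool.Agent.H74.PW.AVG
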