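import Pool.Agent.H70.PW.Targets
import Pool.Agent.H6.NB.Targets

/-!
# MP_0f8dca_lc, module SIN: one instance
-/

set_option autoImplicit false

open Finset Pool.Agent.H6.NB Pool.Agent.H70.OQ Pool.Agent.H70.PW

namespace Pool.Agent.H74.PW.SIN

theorem ic_true {p : Prop} (h : p) : ic p = 1 := by
  unfold ic
  exact if_pos h

theorem ic_false {p : Prop} (h : ¬ p) : ic p = 0 := by
  unfold ic
  exact if_neg h

/-- the value of a test functional -/
theorem tau_sum {A Y : Type} [Fintype A] [Fintype Y] [DecidableEq A] (a : Y → ℝ) (c : ℝ)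
    (π : Y → A) (F : A → ℝ) :
    ∑ P, (∑ y, a y / c * ic (π y = P)) * F P = (∑ y, a y * F (π y)) / c := by
  simp_rw [Finset.sum_mul]
  rw [Finset.sum_comm, Finset.sum_div]
  refine Finset.sum_congr rfl fun y _ => ?_
  rw [Finset.sum_eq_single (π y)]
  · rw [ic_true rfl]
    ring
  · intro P _ hP
    rw [ic_false (Ne.symm hP)]
    ring
  · intro h
    exact absurd (Finset.mem_univ _) h

section

variable {q N : ℕ} {B : ℝ} {F : (Fin N → VV q → Bool) → ℝ} {M : ℝ}

theorem eval_le (hτ : ∀ τ, Tau q N B τ → |∑ P, τ P * F P| ≤ M) (P0 : Fin N → VV q → Bool) :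
    |F P0| ≤ M := by
  have h := hτ _ ⟨0, fun _ => P0, fun _ => 1, Or.inl rfl, fun i v => Or.inl ⟨P0 i v, fun _ => rfl⟩,
    fun _ => by simp, fun P => rfl⟩
  rw [tau_sum] at h
  have h1 : (∑ y : VV q → Bool, (∑ U ∈ powersetCard 0 (univ : Finset (VV q)),
      (1 : ℝ) * ∏ u ∈ U, sg (y u)) * F P0) / (B ^ 0 * 2 ^ Fintype.card (VV q)) = F P0 := by
    have h2 : ∀ y : VV q → Bool, (∑ U ∈ powersetCard 0 (univ : Finset (VV q)),
        (1 : ℝ) * ∏ u ∈ U, sg (y u)) = 1 := by
      intro y
      rw [Finset.powersetCard_zero, Finset.sum_singleton, Finset.prod_empty, mul_one]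
    simp_rw [h2]
    rw [Finset.sum_const, Finset.card_univ, Fintype.card_fun, Fintype.card_bool, pow_zero, one_mul,
      one_mul, nsmul_eq_mul]
    push_cast
    rw [mul_div_assoc, mul_comm, div_mul_cancel₀]
    positivity
  rwa [h1] at h

/-- one copy is varied -/
def up (P : Fin N → VV q → Bool) (i : Fin N) (p : VV q → Bool) : Fin N → VV q → Bool :=
  Function.update P i p

theorem four_le (hB : 1 ≤ B) (hτ : ∀ τ, Tau q N B τ → |∑ P, τ P * F P| ≤ M)
    (P : Fin N → VV q → Bool) (i : Fin N) (ρ : VV q → Option Bool) :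
    L12 (rst ρ fun p => F (Function.update P i p)) ≤ B ^ 2 * M := by
  classical
  set G : (VV q → Bool) → ℝ := rst ρ fun p => F (Function.update P i p) with hG
  have hB0 : 0 < B ^ 2 := by positivity
  have h := hτ _ ⟨2, fun y => Function.update P i fun v => (ρ v).getD (y v),
    fun U => if 0 ≤ hat G U then 1 else -1, Or.inr rfl, fun i' v => ?_, fun U => ?_, fun P => rfl⟩
  · rw [tau_sum] at h
    have h1 : (∑ y : VV q → Bool, (∑ U ∈ powersetCard 2 (univ : Finset (VV q)),
        (if 0 ≤ hat G U then (1 : ℝ) else -1) * ∏ u ∈ U, sg (y u)) *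
          F (Function.update P i fun v => (ρ v).getD (y v))) /
          (B ^ 2 * 2 ^ Fintype.card (VV q)) = L12 G / B ^ 2 := by
      have h2 : ∀ U, (if 0 ≤ hat G U then (1 : ℝ) else -1) * hat G U = |hat G U| := by
        intro U
        split_ifs with hU
        · rw [one_mul, abs_of_nonneg hU]
        · rw [neg_one_mul, abs_of_neg (not_le.1 hU)]
      have h3 : ∑ y : VV q → Bool, (∑ U ∈ powersetCard 2 (univ : Finset (VV q)),
          (if 0 ≤ hat G U then (1 : ℝ) else -1) * ∏ u ∈ U, sg (y u)) *
            F (Function.update P i fun v => (ρ v).getD (y v)) =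
          ∑ U ∈ powersetCard 2 (univ : Finset (VV q)),
            (if 0 ≤ hat G U then (1 : ℝ) else -1) * ∑ y, G y * ∏ u ∈ U, sg (y u) := by
        simp_rw [Finset.sum_mul, Finset.mul_sum]
        rw [Finset.sum_comm]
        refine Finset.sum_congr rfl fun U _ => Finset.sum_congr rfl fun y _ => ?_
        have : G y = F (Function.update P i fun v => (ρ v).getD (y v)) := rfl
        rw [this]
        ring
      rw [h3, mul_comm (B ^ 2), ← div_div, Finset.sum_div]
      congr 1
      unfold L12
      refine Finset.sum_congr rfl fun U _ => ?_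
      rw [mul_div_assoc]
      exact h2 U
    rw [h1] at h
    have h4 := (abs_le.1 h).2
    rwa [div_le_iff₀ hB0, mul_comm] at h4
  · by_cases hi : i' = i
    · subst hi
      rcases hρ : ρ v with _ | b
      · refine Or.inr ⟨v, fun y => ?_⟩
        simp [hρ]
      · refine Or.inl ⟨b, fun y => ?_⟩
        simp [hρ]
    · refine Or.inl ⟨P i' v, fun y => ?_⟩
      simp [Function.update_of_ne hi]
  · show |if 0 ≤ hat G U then (1 : ℝ) else -1| ≤ 1
    split_ifs <;> simp

end

theorem rst_div {V : Type} [Fintype V] [DecidableEq V] (ρ : V → Option Bool)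
    (F : (V → Bool) → ℝ) {M : ℝ} (hM : 0 < M) :
    L12 (rst ρ fun p => F p / M) = L12 (rst ρ F) / M := by
  unfold L12
  rw [Finset.sum_div]
  refine Finset.sum_congr rfl fun U _ => ?_
  have : hat (rst ρ fun p => F p / M) U = hat (rst ρ F) U / M := by
    unfold hat
    rw [div_right_comm, Finset.sum_div (s := univ) (a := M)]
    refine congrArg (· / (2 : ℝ) ^ Fintype.card V) (Finset.sum_congr rfl fun y _ => ?_)
    show F _ / M * _ = F _ * _ / M
    ring
  rw [this, abs_div, abs_of_pos hM]

theorem sin_ (h1 : T_NUC) (h2 : Pool.Agent.H6.NB.T_DIF) (h3 : Pool.Agent.H6.NB.T_CPY)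
    (h4 : Pool.Agent.H6.NB.T_MUP) : T_SIN := by
  intro q N B F M hq her hB hM hτ
  have hF : ∀ P, |F P| ≤ M := eval_le hτ
  rcases hM.eq_or_lt with hM0 | hM0
  · have hF0 : ∀ P, F P = 0 := fun P => abs_eq_zero.1 (le_antisymm (by rw [hM0]; exact hF P)
      (abs_nonneg _))
    rw [← hM0, mul_zero, Finset.sum_eq_zero fun P _ => by rw [hF0 P, mul_zero], abs_zero]
  · have hq0 : 0 < √((2 : ℝ) ^ q) := by positivity
    have hone : ∀ P i, |∑ p, (mu true q p - mu false q p) * F (Function.update P i p)| ≤
        M * ((B ^ 2 + 1) / √(2 ^ q)) := by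
      intro P i
      have h5 := h2 q (fun p => F (Function.update P i p) / M) (B ^ 2) hq (fun ρ => ?_) (fun y => ?_)
      · have h6 : ∑ p, (mu true q p - mu false q p) * (F (Function.update P i p) / M) =
            (∑ p, (mu true q p - mu false q p) * F (Function.update P i p)) / M := by
          rw [Finset.sum_div]
          exact Finset.sum_congr rfl fun p _ => by ring
        rw [h6, abs_div, abs_of_pos hM0, div_le_iff₀ hM0] at h5
        linarith
      · rw [rst_div _ _ hM0, div_le_iff₀ hM0]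
        exact four_le hB hτ P i ρ
      · rw [abs_div, abs_of_pos hM0, div_le_one hM0]
        exact hF _
    have hcpy := h3 N (VV q → Bool) (mu true q) (mu false q) F (M * ((B ^ 2 + 1) / √(2 ^ q)))
      (h4 true q).1 (h4 false q).1 (h4 true q).2.1 (h4 false q).2.1 hone
    have hnu : ∀ b, |∑ P, (nuc b q N P - ∏ i, mu b q (P i)) * F P| ≤ 2 * er q N * M := by
      intro b
      refine (Finset.abs_sum_le_sum_abs _ _).trans ?_
      calc ∑ P, |(nuc b q N P - ∏ i, mu b q (P i)) * F P|
          ≤ ∑ P, |nuc b q N P - ∏ i, mu b q (P i)| * M := by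
            refine Finset.sum_le_sum fun P _ => ?_
            rw [abs_mul]
            exact mul_le_mul_of_nonneg_left (hF P) (abs_nonneg _)
        _ = (∑ P, |nuc b q N P - ∏ i, mu b q (P i)|) * M := by rw [Finset.sum_mul]
        _ ≤ 2 * er q N * M := mul_le_mul_of_nonneg_right (h1 b q N her).2.2.2 hM
    have hsplit : ∑ P, (nuc true q N P - nuc false q N P) * F P =
        ∑ P, (nuc true q N P - ∏ i, mu true q (P i)) * F P +
        ∑ P, (∏ i, mu true q (P i) - ∏ i, mu false q (P i)) * F P -
        ∑ P, (nuc false q N P - ∏ i, mu false q (P i)) * F P := by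
      rw [← Finset.sum_add_distrib, ← Finset.sum_sub_distrib]
      exact Finset.sum_congr rfl fun P _ => by ring
    rw [hsplit]
    have ht := abs_le.1 (hnu true)
    have hf := abs_le.1 (hnu false)
    have hc := abs_le.1 hcpy
    unfold etaB
    rw [abs_le]
    constructor <;> nlinarith [ht.1, ht.2, hf.1, hf.2, hc.1, hc.2]

end Pool.Agent.H74.PW.SIN
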