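import Pool.Agent.H70.PW.Targets

/-!
# MP_0f8dca_lc, module TEN: bounds for products of functionals
-/

set_option autoImplicit false

open Finset Pool.Agent.H6.NB Pool.Agent.H70.OQ Pool.Agent.H70.PW

namespace Pool.Agent.H74.PW.TEN

theorem hsum {ι : Type} [Fintype ι] [DecidableEq ι] {T : ι → Type} [∀ s, Fintype (T s)]
    [∀ s, DecidableEq (T s)] (w : ∀ s, T s → ℝ) (g : (∀ s, T s) → ℝ) (a : ι) (t : T a → ℝ) :
    ∑ p, t p * (∑ P : (∀ s, T s), if P a = p then (∏ s ∈ univ.erase a, w s (P s)) * g P else 0) =
      ∑ P : (∀ s, T s), (∏ s, (Function.update w a t) s (P s)) * g P := by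
  simp_rw [Finset.mul_sum]
  rw [Finset.sum_comm]
  refine Finset.sum_congr rfl fun P _ => ?_
  rw [Finset.sum_eq_single (P a)]
  · rw [if_pos rfl, ← Finset.mul_prod_erase univ _ (Finset.mem_univ a), Function.update_self,
      ← mul_assoc]
    congr 2
    refine Finset.prod_congr rfl fun s hs => ?_
    rw [Function.update_of_ne (Finset.ne_of_mem_erase hs)]
  · intro p _ hp
    rw [if_neg (Ne.symm hp), mul_zero]
  · intro h
    exact absurd (Finset.mem_univ _) h

theorem ten : T_TEN := by
  intro ι _ _ T _ d C η g M hη hM hC hτ
  classical
  have key : ∀ A : Finset ι, ∀ τ : ∀ s, T s → ℝ, (∀ s, s ∉ A → C s (τ s)) →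
      |∑ P, (∏ s, (if s ∈ A then d s else τ s) (P s)) * g P| ≤ (∏ s ∈ A, η s) * M := by
    intro A
    induction A using Finset.induction_on with
    | empty =>
      intro τ h
      simpa using hτ τ fun s => h s (by simp)
    | insert a A ha ih =>
      intro τ h
      have h1 : ∀ t : T a → ℝ, C a t → |∑ p, t p * (∑ P : (∀ s, T s), if P a = p then
          (∏ s ∈ univ.erase a, (fun s => if s ∈ A then d s else τ s : ∀ s, T s → ℝ) s (P s)) * g P
            else 0)| ≤ (∏ s ∈ A, η s) * M := by
        intro t ht
        rw [hsum]
        have h2 : Function.update (fun s => if s ∈ A then d s else τ s : ∀ s, T s → ℝ) a t =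
            fun s => if s ∈ A then d s else Function.update τ a t s := by
          funext s
          by_cases hs : s = a
          · subst hs
            rw [Function.update_self, if_neg ha, Function.update_self]
          · rw [Function.update_of_ne hs, Function.update_of_ne hs]
        rw [h2]
        refine ih _ fun s hs => ?_
        by_cases hsa : s = a
        · subst hsa
          rw [Function.update_self]
          exact ht
        · rw [Function.update_of_ne hsa]
          exact h s fun hmem => (Finset.mem_insert.1 hmem).elim hsa hs
      have h3 := hC a _ _ (mul_nonneg (Finset.prod_nonneg fun s _ => hη s) hM) h1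
      rw [hsum] at h3
      have h4 : Function.update (fun s => if s ∈ A then d s else τ s : ∀ s, T s → ℝ) a (d a) =
          fun s => if s ∈ insert a A then d s else τ s := by
        funext s
        by_cases hs : s = a
        · subst hs
          rw [Function.update_self, if_pos (Finset.mem_insert_self _ _)]
        · rw [Function.update_of_ne hs]
          by_cases hsA : s ∈ A
          · rw [if_pos hsA, if_pos (Finset.mem_insert_of_mem hsA)]
          · rw [if_neg hsA, if_neg fun hmem => (Finset.mem_insert.1 hmem).elim hs hsA]
      rw [h4] at h3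
      rw [Finset.prod_insert ha, mul_assoc]
      exact h3
  have := key univ d fun s hs => absurd (Finset.mem_univ s) hs
  simpa using this

end Pool.Agent.H74.PW.TEN
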